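import Pool.Agent.Helper32_ND.Stmts

/-!
# ND, module XI: linear relations and derivatives
-/

set_option autoImplicit false
set_option linter.unusedVariables false
set_option linter.unusedSectionVars false

namespace Pool.Agent.ND.H70

open Finset Pool.Agent.ND

section

variable {ι : Type} [Fintype ι] [DecidableEq ι] {M : ℕ} {A : Arr ι (M + 2)}
  {K : Type} [Field K] [Algebra ℂ K]

/-- the shifted exponent -/
def sh (σ : ι → K) (κ : ι → ℕ) : ι → K := fun i => σ i + (κ i : K)

theorem sh_add (σ : ι → K) (κ : ι → ℕ) (j : ι) :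
    sh σ (κ + Pi.single j 1) = fun i => sh σ κ i + ev j i := by
  funext i
  unfold sh ev
  rw [Pi.add_apply, Nat.cast_add, add_assoc]
  congr 2
  by_cases h : i = j
  · subst h
    simp
  · simp [h]

theorem key (h1 : TadjStmt) (P : Pts A) (σ : ι → K)
    (hσ : ∀ κ : ι → ℕ, NR fun i => σ i + (κ i : K)) (t : (ι → ℕ) → OS A K (M + 2))
    (ht : IsFam P σ t) (κ : ι → ℕ) (j : ι) (a : OS A K (M + 2)) :
    R A (sh σ (κ + Pi.single j 1)) (M + 2) a (t (κ + Pi.single j 1))
      = R A (sh σ κ) (M + 2) (T P (sh σ κ) j a) (t κ) := by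
  have e1 := sh_add σ κ j
  have e2 : NR (fun i => sh σ κ i + ev j i) := by
    rw [← e1]; exact hσ (κ + Pi.single j 1)
  rw [h1 ι M A P K (sh σ κ) j (hσ κ) e2 a (t κ), ht κ j, ← e1]
  have e3 : (fun i => σ i + (κ i : K) + ev j i) = sh σ (κ + Pi.single j 1) := e1.symm
  rw [e3]

theorem T_lin (P : Pts A) (B : Fin (M + 2) → ι) (hB : ∀ p, A.L (B p) = Pi.single p 1) (ρ : ι → K)
    (j : ι) (x : OS A K (M + 2)) :
    T P ρ j x = ∑ p, algebraMap ℂ K (A.L j p) • T P ρ (B p) x := by
  have hM : ∀ y : OS A K (M + 1), Mj P j y = ∑ p, algebraMap ℂ K (A.L j p) • Mj P (B p) y := by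
    intro y
    have h : (Mj P j : OS A K (M + 1) →ₗ[K] OS A K (M + 1))
        = ∑ p, algebraMap ℂ K (A.L j p) • Mj P (B p) := by
      refine hom_ext fun F => ?_
      rw [LinearMap.sum_apply]
      have e1 : ∀ p, (algebraMap ℂ K (A.L j p) • (Mj P (B p) : OS A K (M + 1) →ₗ[K] _)) (e A K F)
          = algebraMap ℂ K (A.L j p * P.v (A.cl F) p) • e A K F := by
        intro p
        rw [LinearMap.smul_apply]
        unfold Mj
        rw [dg_e, smul_smul, ← map_mul, hB]
        congr 3
        simp [dotProduct, Pi.single_apply]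
      rw [Finset.sum_congr rfl fun p _ => e1 p, ← Finset.sum_smul, ← map_sum]
      unfold Mj
      rw [dg_e]
      rfl
    rw [h, LinearMap.sum_apply]
    rfl
  rw [T_apply, hM, map_sum]
  refine Finset.sum_congr rfl fun p _ => ?_
  rw [map_smul, T_apply]

theorem cnt_face (B : Fin (M + 2) → ι) (p : Fin (M + 2)) :
    cnt B = cnt (B ∘ p.succAbove) + Pi.single (B p) 1 := by
  funext i
  rw [Pi.add_apply]
  unfold cnt
  rw [Finset.card_filter, Finset.card_filter, Fin.sum_univ_succAbove _ p, add_comm]
  congr 1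
  rw [Pi.single_apply]
  by_cases h : B p = i
  · rw [if_pos h, if_pos h.symm]
  · rw [if_neg h, if_neg (Ne.symm h)]

theorem ind_basis (B : Fin (M + 2) → ι) (hB : ∀ p, A.L (B p) = Pi.single p 1) : A.Ind B := by
  unfold Arr.Ind
  have : (fun k => A.L (B k)) = fun k => Pi.basisFun ℂ (Fin (M + 2)) k := by
    funext k
    rw [hB, Pi.basisFun_apply]
  rw [this]
  exact (Pi.basisFun ℂ (Fin (M + 2))).linearIndependent

end

theorem xi (h1 : TadjStmt) (h2 : TfrStmt) (h3 : RsymStmt) : XiStmt := by
  intro ι _ _ M A P K _ _ σ B hB hσ t ht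
  have hphi : ∀ κ, phi A σ B t κ = R A (sh σ (κ + cnt B)) (M + 2) (e A K B) (t (κ + cnt B)) := by
    intro κ
    unfold phi
    congr 3
    funext i
    unfold sh
    rw [Pi.add_apply, Nat.cast_add, add_assoc]
  have hkey := key h1 P σ hσ t ht
  constructor
  · intro κ j
    have e1 : ∀ i : ι, phi A σ B t (κ + Pi.single i 1)
        = R A (sh σ (κ + cnt B)) (M + 2) (T P (sh σ (κ + cnt B)) i (e A K B)) (t (κ + cnt B)) := by
      intro i
      rw [hphi, add_right_comm, hkey]
    rw [e1, T_lin P B hB, map_sum, LinearMap.sum_apply]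
    refine Finset.sum_congr rfl fun p _ => ?_
    rw [e1, map_smul, LinearMap.smul_apply, smul_eq_mul]
  · intro κ hκ p
    have hBind := ind_basis B hB
    set G : Fin (M + 1) → ι := B ∘ p.succAbove with hG
    have hGind : A.Ind G := Ind_face hBind p
    set V : K := algebraMap ℂ K (P.v (A.cl G) p) with hV
    let RR : (ι → ℕ) → K := fun κ' => R A (sh σ (κ' + cnt G)) (M + 2)
      (wX (M + 1) (sh σ (κ' + cnt G)) univ (e A K G)) (t (κ' + cnt G))
    have hfront : e A K B = ((-1 : K) ^ (p : ℕ)) • e A K (Fin.cons (B p) G : Fin (M + 2) → ι) := by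
      rw [e_front B p, smul_smul, ← pow_add, ← two_mul, pow_mul, neg_one_sq, one_pow, one_smul]
    have hdot : dotProduct (A.L (B p)) (P.v (A.cl G)) = P.v (A.cl G) p := by
      rw [hB]
      simp [dotProduct, Pi.single_apply]
    have hA : ∀ κ', phi A σ B t κ' = (-1 : K) ^ (p : ℕ) * V * RR κ' := by
      intro κ'
      rw [hphi, cnt_face B p, ← add_assoc, hkey, hfront, map_smul, h2 ι M A P K _ (B p) G hGind,
        hdot, map_smul, map_smul, LinearMap.smul_apply, LinearMap.smul_apply, smul_eq_mul,
        smul_eq_mul, mul_assoc]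
    have hC : ∀ i, R A (sh σ (κ + cnt G)) (M + 2) (e A K (Fin.cons i G : Fin (M + 2) → ι))
        (t (κ + cnt G)) = algebraMap ℂ K (dotProduct (A.L i) (P.v (A.cl G)))
          * RR (κ - Pi.single i 1) := by
      intro i
      have e1 : κ + cnt G = (κ - Pi.single i 1 + cnt G) + Pi.single i 1 := by
        funext l
        simp only [Pi.add_apply, Pi.sub_apply]
        have := hκ l
        by_cases hl : l = i
        · subst hl
          simp
          omega
        · simp [hl]
      rw [e1, hkey, h2 ι M A P K _ i G hGind, map_smul, LinearMap.smul_apply, smul_eq_mul]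
    have hR : RR κ = ∑ i, (σ i + (κ i : K)) *
        (algebraMap ℂ K (dotProduct (A.L i) (P.v (A.cl G))) * RR (κ - Pi.single i 1)) := by
      change R A (sh σ (κ + cnt G)) (M + 2)
        (wX (M + 1) (sh σ (κ + cnt G)) univ (e A K G)) (t (κ + cnt G)) = _
      rw [wX_apply, map_sum, LinearMap.sum_apply]
      refine Finset.sum_congr rfl fun i _ => ?_
      rw [map_smul, LinearMap.smul_apply, smul_eq_mul, wd_e, hC]
      by_cases hi : i ∈ A.cl G
      · rw [(P.vmem G hGind i).2 hi, map_zero]
        ring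
      · have hc : cnt G i = 0 := by
          unfold cnt
          rw [Finset.card_eq_zero, Finset.filter_eq_empty_iff]
          intro k _ hk
          exact hi (hk ▸ self_mem_cl G k)
        unfold sh
        rw [Pi.add_apply, hc, add_zero]
    have hv : ∀ q, q ≠ p → P.v (A.cl G) q = 0 := by
      intro q hq
      obtain ⟨k, hk⟩ := Fin.exists_succAbove_eq hq
      have e1 := (P.vmem G hGind (B q)).2 (by
        have := self_mem_cl (A := A) G k
        rwa [hG, Function.comp_apply, hk] at this)
      rw [hB] at e1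
      simpa [dotProduct, Pi.single_apply] using e1
    have hdot2 : ∀ w : Fin (M + 2) → ℂ, dotProduct w (P.v (A.cl G)) = w p * P.v (A.cl G) p := by
      intro w
      unfold dotProduct
      rw [Finset.sum_eq_single p]
      · intro q _ hq
        rw [hv q hq, mul_zero]
      · intro h
        exact absurd (Finset.mem_univ p) h
    have hl0 : P.l0 p * P.v (A.cl G) p = 1 := by
      rw [← hdot2]
      exact P.v0 G hGind
    rw [hA, hR, Finset.mul_sum, Finset.mul_sum]
    refine Finset.sum_congr rfl fun i _ => ?_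
    rw [hA, hdot2, map_mul]
    have hl1 : algebraMap ℂ K (P.l0 p) * V = 1 := by
      rw [hV, ← map_mul, hl0, map_one]
    linear_combination ((-1 : K) ^ (p : ℕ) * (σ i + (κ i : K)) * algebraMap ℂ K (A.L i p)
      * V * RR (κ - Pi.single i 1)) * hl1

end Pool.Agent.ND.H70
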