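import Pool.Agent.Helper32_ND.Stmts

/-!
# ND, module SW: the switch from `B` to `B'`
-/

set_option autoImplicit false
set_option linter.unusedVariables false
set_option linter.unusedSectionVars false

namespace Pool.Agent.ND.H70

open Finset Pool.Agent.ND

section

variable {ι : Type} [Fintype ι] [DecidableEq ι] {M : ℕ} {A : Arr ι (M + 2)}
  {K : Type} [Field K] [Algebra ℂ K]

theorem wX_neg {r : ℕ} (ρ : ι → K) (X : Finset ι) (x : OS A K r) :
    wX r (fun i => -ρ i) X x = - wX r ρ X x := by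
  rw [wX_apply, wX_apply, ← Finset.sum_neg_distrib]
  refine Finset.sum_congr rfl fun i _ => ?_
  rw [neg_smul]

theorem T_neg (P : Pts A) (ρ : ι → K) (j : ι) (x : OS A K (M + 2)) :
    T P (fun i => -ρ i) j x = - T P ρ j x := by
  rw [T_apply, T_apply, wX_neg]

/-- commutation, for `ν = ρ + e_j` -/
theorem comm' (h : CommStmt) (P : Pts A) (ρ : ι → K) (i j : ι) (x : OS A K (M + 2)) :
    T P (fun l => ρ l + ev j l) j (T P ρ i x)
      = T P (fun l => ρ l + ev j l) i (T P (fun l => ρ l - ev i l + ev j l) j x) := by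
  have h1 := h ι M A P K (fun l => -(ρ l + ev j l)) j i x
  have e1 : (fun l => -(ρ l + ev j l) + ev j l) = fun l => -ρ l := by
    funext l; ring
  have e2 : (fun l => -(ρ l + ev j l) + ev i l) = fun l => -(ρ l - ev i l + ev j l) := by
    funext l; ring
  rw [e1, e2, T_neg P ρ i x, T_neg P (fun l => ρ l - ev i l + ev j l) j x, map_neg, map_neg,
    T_neg P (fun l => ρ l + ev j l) j, T_neg P (fun l => ρ l + ev j l) i, neg_neg, neg_neg] at h1
  exact h1

end

theorem sw (h1 : TadjStmt) (h2 : TbijStmt) (h3 : TsurStmt) (h4 : TfrStmt) (h5 : CommStmt) :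
    SwStmt := by
  intro ι _ _ M A P K _ _ O hO B p j ρ hB hB' hρO hNR hNRi hNRij hU hPP y hy
  set i : ι := B p with hi
  set G : Fin (M + 1) → ι := B ∘ p.succAbove with hG
  have hGind : A.Ind G := Ind_face hB p
  have hG' : (Function.update B p j) ∘ p.succAbove = G := by
    funext k
    rw [hG, Function.comp_apply, Function.comp_apply, Function.update_of_ne (Fin.succAbove_ne p k)]
  have hfront : e A K B = ((-1 : K) ^ (p : ℕ)) • e A K (Fin.cons i G : Fin (M + 2) → ι) := by
    rw [e_front B p, smul_smul, ← pow_add, ← two_mul, pow_mul, neg_one_sq, one_pow, one_smul]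
  have hfront' : e A K (Function.update B p j)
      = ((-1 : K) ^ (p : ℕ)) • e A K (Fin.cons j G : Fin (M + 2) → ι) := by
    have e1 := e_front (A := A) (K := K) (Function.update B p j) p
    rw [hG', Function.update_self] at e1
    rw [e1, smul_smul, ← pow_add, ← two_mul, pow_mul, neg_one_sq, one_pow, one_smul]
  -- the preimage
  obtain ⟨x, hx⟩ := ((h2 ι M A P K (fun l => ρ l - ev i l + ev j l) j).1 hNRij).2 y
  -- the values of the form
  have hmu : (fun l => ρ l - ev i l + ev i l) = ρ := by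
    funext l; ring
  have hLi : dotProduct (A.L i) (P.v (A.cl G)) ≠ 0 := by
    intro h
    have e1 := (P.vmem G hGind i).1 h
    have e2 := (Ind_cons_cycle B p).2 hB
    exact ((Ind_cons_iff _ _).1 e2).2 e1
  set RR : K := R A (fun l => ρ l - ev i l) (M + 2)
    (wX (M + 1) (fun l => ρ l - ev i l) univ (e A K G)) x with hRR
  have hV1 : R A (fun l => ρ l - ev i l + ev j l) (M + 2) (e A K (Function.update B p j)) y
      = (-1 : K) ^ (p : ℕ) * (algebraMap ℂ K (dotProduct (A.L j) (P.v (A.cl G))) * RR) := by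
    have e1 := h1 ι M A P K (fun l => ρ l - ev i l) j hNRi hNRij
      (e A K (Fin.cons j G : Fin (M + 2) → ι)) x
    rw [hfront', map_smul, LinearMap.smul_apply, smul_eq_mul, ← hx, ← e1,
      h4 ι M A P K _ j G hGind, map_smul, LinearMap.smul_apply, smul_eq_mul]
  have hV2 : R A ρ (M + 2) (e A K B) (T P ρ i x)
      = (-1 : K) ^ (p : ℕ) * (algebraMap ℂ K (dotProduct (A.L i) (P.v (A.cl G))) * RR) := by
    have e1 := h1 ι M A P K (fun l => ρ l - ev i l) i hNRi (by rw [hmu]; exact hNR)
      (e A K (Fin.cons i G : Fin (M + 2) → ι)) x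
    rw [hmu] at e1
    rw [hfront, map_smul, LinearMap.smul_apply, smul_eq_mul, ← e1,
      h4 ι M A P K _ i G hGind, map_smul, LinearMap.smul_apply, smul_eq_mul]
  -- integrality of the image
  have hνO : ∀ l, (fun l => ρ l + ev j l) l ∈ O := hU.1
  have hb : T P ρ i x ∈ Lat A O (M + 2) := by
    refine (h2 ι M A P K (fun l => ρ l + ev j l) j).2 O hO hU _ ?_
    rw [comm' h5, hx]
    exact (h3 ι M A P K O hO _ i).1 hνO y hy
  have hfin := hPP _ hb
  rw [hV2] at hfin
  rw [hV1]
  have hne : algebraMap ℂ K (dotProduct (A.L i) (P.v (A.cl G))) ≠ 0 := by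
    rw [Ne, map_eq_zero]
    exact hLi
  have e3 : (-1 : K) ^ (p : ℕ) * (algebraMap ℂ K (dotProduct (A.L j) (P.v (A.cl G))) * RR)
      = algebraMap ℂ K (dotProduct (A.L j) (P.v (A.cl G))
        * (dotProduct (A.L i) (P.v (A.cl G)))⁻¹) *
        ((-1 : K) ^ (p : ℕ) * (algebraMap ℂ K (dotProduct (A.L i) (P.v (A.cl G))) * RR)) := by
    rw [map_mul, map_inv₀]
    field_simp
  rw [e3]
  exact O.mul_mem (hO _) hfin

end Pool.Agent.ND.H70
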